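import Pool.Agent.Q145.GB.Wt
import Pool.Agent.Results.MP_c853c5_nt.PrimeFreePatternsAtPrimes

set_option autoImplicit false

/-! # The values of the least prime in Goldbach representations

`g m` is the least prime `p` such that `m - p` is prime, and `F(x) = log x (log₂ x)³ log₄ x / (log₃ x)²`, the
order of the largest values of `g` that are known (starting result `LeastSummand` of this folder).

Every odd prime `p ≤ c F(x)` is the value `g m` of at least `x^(9/10)` even numbers `m` in `(x, 4 x]`, and the set of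
the limit points of `g m / (log m log log m)` is `[0, ∞]`. -/

namespace Pool.Agent.Results.MP_bae66e_nt.EveryPrimeOccurs

open Finset Filter
open Pool.Agent.Results.MP_c853c5_nt.PrimeFreePatternsAtPrimes (f)

/-- `F(x) = log x (log₂ x)³ log₄ x / (log₃ x)²` (iterated natural logarithms). -/
noncomputable def F (x : ℝ) : ℝ :=
  Real.log x * (Real.log (Real.log x)) ^ 3 * Real.log (Real.log (Real.log (Real.log x))) /
    (Real.log (Real.log (Real.log x))) ^ 2

/-- The least prime `p` such that `m = p + q` with `q` prime; `⊤` if there is none. -/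
noncomputable def g (m : ℕ) : ℕ∞ :=
  sInf {a : ℕ∞ | ∃ p q : ℕ, p.Prime ∧ q.Prime ∧ p + q = m ∧ a = (p : ℕ∞)}

/-- `m` is even, its least prime is `p₀`, and `p₀` is the ONLY prime `p ≤ y` for which one of the numbers
`i m - p`, `i m + p`, `1 ≤ i ≤ J`, is prime. -/
def Only (J : ℕ) (y : ℝ) (p₀ m : ℕ) : Prop :=
  Even m ∧ g m = p₀ ∧ ∀ i : ℕ, 1 ≤ i → i ≤ J → ∀ p q : ℕ, p.Prime → q.Prime → (p : ℝ) ≤ y →
    (p + q = i * m → i = 1 ∧ p = p₀) ∧ i * m + p ≠ q

theorem F_eq (x : ℝ) : F x = f x * Real.log (Real.log x) := by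
  unfold F f
  ring

theorem log_sq_le {t : ℝ} (ht : 1 ≤ t) : (Real.log t) ^ 2 ≤ 4 * t := by
  have hs : 0 < Real.sqrt t := Real.sqrt_pos.2 (by linarith)
  have h1 := Real.log_le_sub_one_of_pos hs
  rw [Real.log_sqrt (by linarith)] at h1
  have h2 : Real.sqrt t ^ 2 = t := Real.sq_sqrt (by linarith)
  have h3 := Real.log_nonneg ht
  nlinarith

/-- the iterated logarithms are large -/
theorem ev (B : ℝ) : ∀ᶠ x : ℝ in atTop, B ≤ x ∧ B ≤ Real.log x ∧ B ≤ Real.log (Real.log x) ∧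
    B ≤ Real.log (Real.log (Real.log x)) ∧ B ≤ Real.log (Real.log (Real.log (Real.log x))) := by
  have t1 := Real.tendsto_log_atTop
  have t2 : Tendsto (fun x : ℝ => Real.log (Real.log x)) atTop atTop := t1.comp t1
  have t3 : Tendsto (fun x : ℝ => Real.log (Real.log (Real.log x))) atTop atTop := t1.comp t2
  have t4 : Tendsto (fun x : ℝ => Real.log (Real.log (Real.log (Real.log x)))) atTop atTop := t1.comp t3
  filter_upwards [eventually_ge_atTop B, t1.eventually_ge_atTop B, t2.eventually_ge_atTop B,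
    t3.eventually_ge_atTop B, t4.eventually_ge_atTop B] with x a1 a2 a3 a4 a5
  exact ⟨a1, a2, a3, a4, a5⟩

/-- simple bounds for `F` -/
theorem F_bounds {x : ℝ} (h1 : 1 ≤ Real.log x) (h2 : 1 ≤ Real.log (Real.log x))
    (h3 : 1 ≤ Real.log (Real.log (Real.log x))) (h4 : 1 ≤ Real.log (Real.log (Real.log (Real.log x)))) :
    F x ≤ Real.log x * (Real.log (Real.log x)) ^ 4 ∧
      Real.log x * (Real.log (Real.log x)) ^ 2 / 4 ≤ F x := by
  unfold F
  set l1 := Real.log x with hl1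
  set l2 := Real.log l1 with hl2
  set l3 := Real.log l2 with hl3
  set l4 := Real.log l3 with hl4
  have p1 : 0 < l1 := by linarith
  have p2 : 0 < l2 := by linarith
  have p3 : 0 < l3 := by linarith
  have p4 : 0 < l4 := by linarith
  have q1 : l3 ^ 2 ≤ 4 * l2 := log_sq_le (by linarith)
  have q3 : l4 ≤ l3 := by
    have := Real.log_le_sub_one_of_pos p3
    linarith
  constructor
  · have e1 : l4 / l3 ^ 2 ≤ 1 := by
      rw [div_le_one (by positivity)]
      nlinarith
    have e2 : l2 ^ 3 ≤ l2 ^ 4 := pow_le_pow_right₀ (by linarith) (by norm_num)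
    calc l1 * l2 ^ 3 * l4 / l3 ^ 2 = l1 * l2 ^ 3 * (l4 / l3 ^ 2) := by ring
      _ ≤ l1 * l2 ^ 3 * 1 := by gcongr
      _ ≤ l1 * l2 ^ 4 := by rw [mul_one]; gcongr
  · have e1 : l1 * l2 ^ 3 * l4 / (4 * l2) ≤ l1 * l2 ^ 3 * l4 / l3 ^ 2 :=
      div_le_div_of_nonneg_left (by positivity) (by positivity) q1
    refine le_trans ?_ e1
    have e2 : l1 * l2 ^ 3 * l4 / (4 * l2) = l1 * l2 ^ 2 * l4 / 4 := by
      field_simp
    rw [e2]
    have : l1 * l2 ^ 2 * 1 ≤ l1 * l2 ^ 2 * l4 := by gcongr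
    linarith

theorem sum_image_le {ι : Type} (s : Finset ι) (f : ι → ℤ) (w : ℤ → ℝ) (hw : ∀ z, 0 ≤ w z) :
    ∑ z ∈ s.image f, w z ≤ ∑ i ∈ s, w (f i) := by
  classical
  induction s using Finset.induction_on with
  | empty => simp
  | insert a s ha ih =>
    rw [image_insert, sum_insert ha]
    by_cases h : f a ∈ s.image f
    · rw [insert_eq_of_mem h]
      linarith [hw (f a)]
    · rw [sum_insert h]
      linarith

theorem sum_biUnion_le {ι : Type} (s : Finset ι) (t : ι → Finset ℤ) (w : ℤ → ℝ) (hw : ∀ z, 0 ≤ w z) :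
    ∑ z ∈ s.biUnion t, w z ≤ ∑ i ∈ s, ∑ z ∈ t i, w z := by
  classical
  induction s using Finset.induction_on with
  | empty => simp
  | insert a s ha ih =>
    rw [biUnion_insert, sum_insert ha]
    have h1 := sum_union_inter (s₁ := t a) (s₂ := s.biUnion t) (f := w)
    have h2 : 0 ≤ ∑ z ∈ t a ∩ s.biUnion t, w z := sum_nonneg fun z _ => hw z
    linarith

open Classical in
/-- the values of `g` up to `c F(x)` -/
theorem occurs (J : ℕ) (hJ : 1 ≤ J) : ∃ c : ℝ, 0 < c ∧ ∃ x₀ : ℝ, ∀ x : ℝ, x₀ ≤ x → ∀ p₀ : ℕ, p₀.Prime → p₀ ≠ 2 →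
    (p₀ : ℝ) ≤ c * F x →
    x ^ (9 / 10 : ℝ) ≤ ({m : ℕ | x < m ∧ (m : ℝ) ≤ 4 * x ∧ Only J (c * F x) p₀ m}.ncard : ℝ) := by
  obtain ⟨C, hC, hsum⟩ := Pool.Agent.Q145.GB.sum_ratio
  obtain ⟨c₁, hc₁, X₁, hX₁⟩ :=
    Pool.Agent.Results.MP_c853c5_nt.PrimeFreePatternsAtPrimes.result 5 0 J 1 1 squarefree_one
  have hJr : (1 : ℝ) ≤ J := by exact_mod_cast hJ
  obtain ⟨c, hc⟩ : ∃ c : ℝ, c = min 1 (c₁ / (2 * J * C)) := ⟨_, rfl⟩
  have hc0 : 0 < c := by rw [hc]; exact lt_min one_pos (by positivity)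
  have hc1 : c ≤ 1 := by rw [hc]; exact min_le_left _ _
  have hc2 : 2 * J * C * c ≤ c₁ := by
    have : c ≤ c₁ / (2 * J * C) := by rw [hc]; exact min_le_right _ _
    rw [le_div_iff₀ (by positivity)] at this
    linarith
  have hpow : ∀ᶠ x : ℝ in atTop, Real.log x * (Real.log (Real.log x)) ^ 4 ≤ x := by
    have t1 := Real.tendsto_log_atTop
    have h1 : ∀ᶠ t : ℝ in atTop, t ^ 5 ≤ Real.exp t := by
      have := Real.tendsto_exp_div_pow_atTop 5
      filter_upwards [this.eventually_ge_atTop 1, eventually_gt_atTop 0] with t h1 h2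
      rw [le_div_iff₀ (by positivity)] at h1
      linarith
    filter_upwards [t1.eventually h1, eventually_gt_atTop 0, t1.eventually_ge_atTop 1] with x h2 h3 h4
    rw [Real.exp_log h3] at h2
    have h5 : Real.log (Real.log x) ≤ Real.log x := by
      have := Real.log_le_sub_one_of_pos (show 0 < Real.log x by linarith)
      linarith
    have h6 : 0 ≤ Real.log (Real.log x) := Real.log_nonneg h4
    calc Real.log x * (Real.log (Real.log x)) ^ 4 ≤ Real.log x * (Real.log x) ^ 4 := by gcongr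
      _ = Real.log x ^ 5 := by ring
      _ ≤ x := h2
  obtain ⟨X₂, hX₂⟩ := eventually_atTop.1 ((ev (100 + J + 8 / c + 16 * ((J : ℝ) + 1) ^ 2)).and hpow)
  refine ⟨c, hc0, max X₁ X₂, fun x hx p₀ hp₀ hp₀2 hp₀F => ?_⟩
  obtain ⟨⟨m0, m1, m2, m3, m4⟩, m5⟩ := hX₂ x ((le_max_right _ _).trans hx)
  have hJ2 : 0 ≤ 16 * ((J : ℝ) + 1) ^ 2 := by positivity
  have hc8 : 0 < 8 / c := by positivity
  obtain ⟨b1, b2⟩ := F_bounds (x := x) (by linarith) (by linarith) (by linarith) (by linarith)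
  obtain ⟨l1, hl1⟩ : ∃ l1 : ℝ, l1 = Real.log x := ⟨_, rfl⟩
  obtain ⟨l2, hl2⟩ : ∃ l2 : ℝ, l2 = Real.log l1 := ⟨_, rfl⟩
  rw [← hl1] at m1 m2 b1 b2 m5
  rw [← hl2] at m2 b1 b2 m5
  have p1 : 0 < l1 := by linarith
  have p2 : 0 < l2 := by linarith
  have hx0 : 0 < x := by linarith
  have hF0 : 0 < F x := lt_of_lt_of_le (by positivity) b2
  have hFf : F x = f x * l2 := by rw [F_eq, hl2, hl1]
  have hf0 : 0 < f x := by
    rw [hFf] at hF0
    exact (mul_pos_iff_of_pos_right p2).1 hF0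
  -- lower bound for c F
  have hFlow : l1 + 1 ≤ c * F x := by
    have h1 : 8 / c ≤ l2 := by linarith
    have h2 : 8 ≤ c * l2 := by
      rw [div_le_iff₀ hc0] at h1
      linarith
    have h3 : c * (l1 * l2 ^ 2 / 4) ≤ c * F x := by gcongr
    have h4 : l1 * (8 * 1) / 4 ≤ l1 * ((c * l2) * l2) / 4 := by
      have : 8 * 1 ≤ (c * l2) * l2 := mul_le_mul h2 (by linarith) (by norm_num) (by positivity)
      gcongr
    have h5 : c * (l1 * l2 ^ 2 / 4) = l1 * ((c * l2) * l2) / 4 := by ring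
    linarith
  obtain ⟨M, hM⟩ : ∃ M : ℕ, M = ⌊c * F x⌋₊ := ⟨_, rfl⟩
  have hM1 : (M : ℝ) ≤ c * F x := by rw [hM]; exact Nat.floor_le (by positivity)
  have hM2 : l1 ≤ M := by
    have := Nat.lt_floor_add_one (c * F x)
    rw [← hM] at this
    linarith
  have hMle : ∀ p : ℕ, (p : ℝ) ≤ c * F x → p ≤ M := fun p hp => by
    rw [hM]
    exact Nat.le_floor hp
  have hMJ : 16 * (J + 1) ^ 2 ≤ M := by
    have : (16 : ℝ) * ((J : ℝ) + 1) ^ 2 ≤ M := by linarith
    exact_mod_cast this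
  have hMpos : (0 : ℝ) < M := by linarith
  have hlogM : l2 ≤ Real.log M := by
    rw [hl2]
    exact Real.log_le_log p1 hM2
  have hMlog : (M : ℝ) / Real.log M ≤ c * f x := by
    rw [div_le_iff₀ (by linarith)]
    calc (M : ℝ) ≤ c * F x := hM1
      _ = c * f x * l2 := by rw [hFf]; ring
      _ ≤ c * f x * Real.log M := by gcongr
  have hMF : (M : ℝ) ≤ l1 * l2 ^ 4 := by
    calc (M : ℝ) ≤ c * F x := hM1
      _ ≤ 1 * F x := by gcongr
      _ ≤ l1 * l2 ^ 4 := by rw [one_mul]; exact b1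
  -- the set of the shifts
  obtain ⟨I, hI⟩ : ∃ I : Finset ℤ, I = (Icc (-(J : ℤ)) J).filter (fun i => i ≠ 0) := ⟨_, rfl⟩
  obtain ⟨PS, hPS⟩ : ∃ PS : ℤ → Finset ℕ, PS = fun i => (Icc 1 M).filter (fun p : ℕ => p.Prime ∧ (p : ℤ) ≠ i * p₀) :=
    ⟨_, rfl⟩
  obtain ⟨Z, hZ⟩ : ∃ Z : Finset ℤ, Z = I.biUnion (fun i => (PS i).image (fun p : ℕ => (i * p₀ - p : ℤ))) := ⟨_, rfl⟩
  have hIabs : ∀ i ∈ I, i.natAbs ≤ J := by
    intro i hi
    rw [hI, mem_filter, mem_Icc] at hi
    omega
  have hIcard : I.card ≤ 2 * J := by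
    have h1 : I = (Icc (-(J : ℤ)) J).erase 0 := by
      rw [hI]
      ext i
      rw [mem_filter, mem_erase]
      tauto
    rw [h1, card_erase_of_mem (by rw [mem_Icc]; omega), Int.card_Icc]
    omega
  have hp₀M : p₀ ≤ M := hMle p₀ hp₀F
  have hZ0 : ∀ z ∈ Z, z ≠ 0 ∧ |(z : ℝ)| ≤ Real.log x * (Real.log (Real.log x)) ^ 5 := by
    intro z hz
    rw [hZ, mem_biUnion] at hz
    obtain ⟨i, hi, hz⟩ := hz
    obtain ⟨p, hp, rfl⟩ := mem_image.1 hz
    rw [hPS, mem_filter, mem_Icc] at hp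
    obtain ⟨⟨hp1, hp2⟩, hp3, hp4⟩ := hp
    refine ⟨fun h => hp4 (by omega), ?_⟩
    have h1 : |(i : ℝ)| ≤ J := by
      have := hIabs i hi
      have h2 : ((i.natAbs : ℕ) : ℝ) ≤ J := by exact_mod_cast this
      rwa [Nat.cast_natAbs, Int.cast_abs] at h2
    have h2 : (p : ℝ) ≤ M := by exact_mod_cast hp2
    have h3 : (p₀ : ℝ) ≤ M := by exact_mod_cast hp₀M
    rw [← hl1, ← hl2]
    push_cast
    calc |(i : ℝ) * p₀ - p| ≤ |(i : ℝ) * p₀| + |(p : ℝ)| := abs_sub _ _
      _ = |(i : ℝ)| * p₀ + p := by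
          rw [abs_mul, Nat.abs_cast, Nat.abs_cast]
      _ ≤ J * M + M := by gcongr
      _ = (J + 1) * M := by ring
      _ ≤ l2 * (l1 * l2 ^ 4) := mul_le_mul (by linarith) hMF hMpos.le p2.le
      _ = l1 * l2 ^ 5 := by ring
  have hZw : ∑ z ∈ Z, (|(z : ℝ)| / (z.natAbs.totient : ℝ)) ≤ c₁ * f x := by
    have h1 : ∑ z ∈ Z, (|(z : ℝ)| / (z.natAbs.totient : ℝ)) ≤
        ∑ i ∈ I, ∑ p ∈ PS i, (((i * p₀ - p : ℤ).natAbs : ℝ) / ((i * p₀ - p : ℤ).natAbs.totient : ℝ)) := by
      rw [hZ]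
      refine (sum_biUnion_le _ _ _ fun z => by positivity).trans (sum_le_sum fun i _ => ?_)
      refine (sum_image_le _ _ _ fun z => by positivity).trans (le_of_eq (sum_congr rfl fun p _ => ?_))
      rw [Nat.cast_natAbs, Int.cast_abs]
    refine h1.trans ?_
    calc ∑ i ∈ I, ∑ p ∈ PS i, (((i * p₀ - p : ℤ).natAbs : ℝ) / ((i * p₀ - p : ℤ).natAbs.totient : ℝ)) ≤
        ∑ i ∈ I, C * (M / Real.log M) := by
          apply sum_le_sum
          intro i hi
          rw [hPS]
          apply hsum J M hMJ (i * p₀)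
          rw [Int.natAbs_mul, Int.natAbs_natCast]
          exact Nat.mul_le_mul (hIabs i hi) hp₀M
      _ = I.card * (C * (M / Real.log M)) := by rw [sum_const, nsmul_eq_mul]
      _ ≤ (2 * J : ℕ) * (C * (c * f x)) := by
          have h2 : (I.card : ℝ) ≤ (2 * J : ℕ) := by exact_mod_cast hIcard
          have h3 : C * (M / Real.log M) ≤ C * (c * f x) := by gcongr
          exact mul_le_mul h2 h3 (by positivity) (Nat.cast_nonneg _)
      _ = (2 * J * C * c) * f x := by push_cast; ring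
      _ ≤ c₁ * f x := by gcongr
  have hmain := hX₁ x ((le_max_left _ _).trans hx) 1 one_ne_zero (by simp) (by simp) 1
    (Nat.coprime_one_left 1) Z hZ0 hZw
  refine hmain.trans ?_
  obtain ⟨S, hS⟩ : ∃ S : Set ℕ, S = {p : ℕ | p.Prime ∧ x < p ∧ (p : ℝ) ≤ 3 * x ∧ p ≡ 1 [MOD 1] ∧
      ∀ i j : ℤ, 1 ≤ |i| → |i| ≤ J → 1 ≤ |j| → |j| ≤ J → ∀ q : ℕ, q.Prime →
        j * q - i * (1 * p) ∉ Z} := ⟨_, rfl⟩
  rw [← hS]
  obtain ⟨T, hT⟩ : ∃ T : Set ℕ, T = {m : ℕ | x < m ∧ (m : ℝ) ≤ 4 * x ∧ Only J (c * F x) p₀ m} := ⟨_, rfl⟩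
  rw [← hT]
  have hTfin : T.Finite := by
    apply (Set.finite_Iic ⌊4 * x⌋₊).subset
    intro m hm
    rw [hT] at hm
    exact Set.mem_Iic.2 (Nat.le_floor hm.2.1)
  have hmaps : Set.MapsTo (fun q : ℕ => q + p₀) S T := by
    intro q₀ hq₀
    rw [hS] at hq₀
    obtain ⟨hq1, hq2, hq3, -, hq4⟩ := hq₀
    rw [hT]
    change x < ((q₀ + p₀ : ℕ) : ℝ) ∧ ((q₀ + p₀ : ℕ) : ℝ) ≤ 4 * x ∧ Only J (c * F x) p₀ (q₀ + p₀)
    have hp₀r : (0 : ℝ) ≤ p₀ := Nat.cast_nonneg _
    have hcFx : c * F x ≤ x := by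
      calc c * F x ≤ 1 * F x := by gcongr
        _ ≤ l1 * l2 ^ 4 := by rw [one_mul]; exact b1
        _ ≤ x := m5
    have hq₀2 : 2 < q₀ := by
      have : (2 : ℝ) < q₀ := by linarith
      exact_mod_cast this
    -- the main property
    have hkey : ∀ i : ℕ, 1 ≤ i → i ≤ J → ∀ p q : ℕ, p.Prime → q.Prime → (p : ℝ) ≤ c * F x →
        (p + q = i * (q₀ + p₀) → i = 1 ∧ p = p₀) ∧ i * (q₀ + p₀) + p ≠ q := by
      intro i hi1 hi2 p q hp hq hpF
      have hpM : p ≤ M := hMle p hpF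
      constructor
      · intro h
        have hz : ((q : ℤ)) - i * q₀ = i * p₀ - p := by
          have h2 : ((p + q : ℕ) : ℤ) = ((i * (q₀ + p₀) : ℕ) : ℤ) := by rw [h]
          push_cast at h2
          linarith
        by_cases hpe : (p : ℤ) = i * p₀
        · have h3 : (q : ℤ) = i * q₀ := by linarith
          have h4 : q = i * q₀ := by exact_mod_cast h3
          have h5 : i = 1 := by
            rcases (Nat.dvd_prime hq).1 (Dvd.intro i (by rw [h4]; ring) : q₀ ∣ q) with h6 | h6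
            · omega
            · have h7 : i * q₀ = 1 * q₀ := by rw [← h4, one_mul, h6]
              exact Nat.eq_of_mul_eq_mul_right (by omega) h7
          refine ⟨h5, ?_⟩
          rw [h5] at hpe
          push_cast at hpe
          omega
        · exfalso
          apply hq4 i 1 (by simp; omega) (by simp; omega) (by simp) (by simp; omega) q hq
          rw [hZ, mem_biUnion]
          refine ⟨i, ?_, ?_⟩
          · rw [hI, mem_filter, mem_Icc]
            omega
          · rw [mem_image]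
            refine ⟨p, ?_, ?_⟩
            · rw [hPS, mem_filter, mem_Icc]
              exact ⟨⟨hp.one_lt.le, hpM⟩, hp, hpe⟩
            · linarith
      · intro h
        apply hq4 (-i) (-1) (by simp; omega) (by simp; omega) (by simp) (by simp; omega) q hq
        rw [hZ, mem_biUnion]
        refine ⟨-i, ?_, ?_⟩
        · rw [hI, mem_filter, mem_Icc]
          omega
        · rw [mem_image]
          refine ⟨p, ?_, ?_⟩
          · rw [hPS, mem_filter, mem_Icc]
            refine ⟨⟨hp.one_lt.le, hpM⟩, hp, ?_⟩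
            have h1 := hp.pos
            have h2 : (0 : ℤ) ≤ i * p₀ := by positivity
            intro h3
            have h4 : (p : ℤ) = - (i * p₀) := by rw [h3]; ring
            omega
          · have h2 : ((i * (q₀ + p₀) + p : ℕ) : ℤ) = (q : ℤ) := by rw [h]
            push_cast at h2
            linarith
    have hq₀x : (q₀ : ℝ) + p₀ ≤ 4 * x := by linarith
    refine ⟨by push_cast; linarith, by push_cast; exact hq₀x, ?_, ?_, hkey⟩
    · have h1 := hq1.eq_two_or_odd'
      have h2 := hp₀.eq_two_or_odd'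
      rcases h1 with h1 | h1
      · omega
      · rcases h2 with h2 | h2
        · exact absurd h2 hp₀2
        · exact h1.add_odd h2
    · unfold g
      apply le_antisymm
      · exact sInf_le ⟨p₀, q₀, hp₀, hq1, by ring, rfl⟩
      · apply le_sInf
        rintro a ⟨p, q, hp, hq, hpq, rfl⟩
        by_contra hcon
        push Not at hcon
        have h1 : p < p₀ := by exact_mod_cast hcon
        have h2 : (p : ℝ) ≤ c * F x := by
          have : (p : ℝ) ≤ p₀ := by exact_mod_cast h1.le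
          linarith
        have h3 := ((hkey 1 le_rfl hJ p q hp hq h2).1 (by rw [hpq]; ring)).2
        omega
  have hinj : Set.InjOn (fun q : ℕ => q + p₀) S := fun a _ b _ h => Nat.add_right_cancel h
  have := Set.ncard_le_ncard_of_injOn _ hmaps hinj hTfin
  exact_mod_cast this

/-- every `v ≥ 0` is a limit point -/
theorem limit_points (v : ℝ) (hv : 0 ≤ v) (ε : ℝ) (hε : 0 < ε) (N : ℕ) :
    ∃ m p : ℕ, N ≤ m ∧ Even m ∧ g m = p ∧ |(p : ℝ) / (Real.log m * Real.log (Real.log m)) - v| < ε := by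
  obtain ⟨c, hc, x₀, h⟩ := occurs 1 le_rfl
  -- a prime `p ≤ c F(exp t)` near `v t log t` gives a number `m`
  have hstep : ∀ t : ℝ, 3 ≤ t → x₀ ≤ Real.exp t → (N : ℝ) ≤ Real.exp t → ∀ p : ℕ, p.Prime → p ≠ 2 →
      (p : ℝ) ≤ c * F (Real.exp t) → ∃ m : ℕ, N ≤ m ∧ Even m ∧ g m = p ∧ t ≤ Real.log m ∧ Real.log m ≤ t + 2 := by
    intro t ht hx hN p hp hp2 hpF
    have h1 := h (Real.exp t) hx p hp hp2 hpF
    have h2 : (0 : ℝ) < ({m : ℕ | Real.exp t < m ∧ (m : ℝ) ≤ 4 * Real.exp t ∧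
        Only 1 (c * F (Real.exp t)) p m}.ncard : ℝ) := lt_of_lt_of_le (by positivity) h1
    have h3 : {m : ℕ | Real.exp t < m ∧ (m : ℝ) ≤ 4 * Real.exp t ∧
        Only 1 (c * F (Real.exp t)) p m}.Nonempty := by
      apply Set.nonempty_of_ncard_ne_zero
      intro h4
      rw [h4] at h2
      simp at h2
    obtain ⟨m, hm1, hm2, hm3, hm4, -⟩ := h3
    have hm0 : (0 : ℝ) < m := (Real.exp_pos t).trans hm1
    refine ⟨m, ?_, hm3, hm4, ?_, ?_⟩
    · have : (N : ℝ) ≤ m := hN.trans hm1.le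
      exact_mod_cast this
    · rw [Real.le_log_iff_exp_le hm0]
      exact hm1.le
    · rw [Real.log_le_iff_le_exp hm0]
      refine hm2.trans ?_
      rw [Real.exp_add]
      have : (4 : ℝ) ≤ Real.exp 2 := by
        have h5 : Real.exp 2 = Real.exp 1 * Real.exp 1 := by rw [← Real.exp_add]; norm_num
        have h6 := Real.exp_one_gt_d9
        rw [h5]
        nlinarith
      rw [mul_comm]
      gcongr
  have hE := Real.tendsto_exp_atTop
  -- the conditions which hold for all large `t`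
  have hev : ∀ᶠ t : ℝ in atTop, 3 ≤ t ∧ x₀ ≤ Real.exp t ∧ (N : ℝ) ≤ Real.exp t ∧
      v * (t * Real.log t) ≤ c * F (Real.exp t) ∧ 3 ≤ c * F (Real.exp t) ∧ 1 ≤ Real.log t ∧
      4 * v / ε < t ∧ 3 / ε < t := by
    filter_upwards [eventually_ge_atTop 3, hE.eventually_ge_atTop x₀, hE.eventually_ge_atTop (N : ℝ),
      eventually_gt_atTop (4 * v / ε), eventually_gt_atTop (3 / ε), hE.eventually (ev (1 + 4 * v / c + 12 / c))]
      with t a1 a2 a3 a4 a5 a6
    obtain ⟨-, m1, m2, m3, m4⟩ := a6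
    have hv0 : 0 ≤ 4 * v / c := by positivity
    have hv1 : 0 < 12 / c := by positivity
    obtain ⟨-, b2⟩ := F_bounds (x := Real.exp t) (by linarith) (by linarith) (by linarith) (by linarith)
    rw [Real.log_exp] at m1 m2 b2
    have hl : 4 * v / c ≤ Real.log t := by linarith
    have hl' : 12 / c ≤ Real.log t := by linarith
    rw [div_le_iff₀ hc] at hl hl'
    have hl1 : 1 ≤ Real.log t := by linarith
    have ht1 : 1 ≤ t := by linarith
    have h1 : c * (t * Real.log t ^ 2 / 4) ≤ c * F (Real.exp t) := by gcongr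
    have h2 : v * (t * Real.log t) ≤ c * (t * Real.log t ^ 2 / 4) := by
      have h3 : 0 ≤ t * Real.log t := by positivity
      calc v * (t * Real.log t) = (4 * v) * (t * Real.log t) / 4 := by ring
        _ ≤ (Real.log t * c) * (t * Real.log t) / 4 := by gcongr
        _ = c * (t * Real.log t ^ 2 / 4) := by ring
    have h4 : 3 ≤ c * (t * Real.log t ^ 2 / 4) := by
      calc (3 : ℝ) = 12 * (1 * 1) / 4 := by norm_num
        _ ≤ (Real.log t * c) * (t * Real.log t) / 4 := by gcongr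
        _ = c * (t * Real.log t ^ 2 / 4) := by ring
    exact ⟨a1, a2, a3, h2.trans h1, h4.trans h1, hl1, a4, a5⟩
  obtain ⟨t₀, ht₀⟩ := eventually_atTop.1 hev
  rcases hv.eq_or_lt with hv0 | hv0
  · -- `v = 0`: the prime `3`
    obtain ⟨c1, c2, c3, -, c5, c6, -, c8⟩ := ht₀ t₀ le_rfl
    obtain ⟨m, hm1, hm2, hm3, hm4, hm5⟩ := hstep t₀ c1 c2 c3 3 Nat.prime_three (by norm_num) (by exact_mod_cast c5)
    refine ⟨m, 3, hm1, hm2, by exact_mod_cast hm3, ?_⟩
    have hlm : 0 < Real.log m := by linarith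
    have hll : 1 ≤ Real.log (Real.log m) := c6.trans (Real.log_le_log (by linarith) hm4)
    have h1 : t₀ ≤ Real.log m * Real.log (Real.log m) := by nlinarith
    rw [← hv0, sub_zero, abs_of_nonneg (by positivity)]
    rw [div_lt_iff₀ (by positivity)]
    rw [div_lt_iff₀ hε] at c8
    push_cast
    nlinarith
  · -- `v > 0`
    obtain ⟨c1, c2, c3, c4, c5, c6, c7, c8⟩ := ht₀ (max t₀ 3) (le_max_left _ _)
    set T := max t₀ 3 with hT
    have hT3 : 3 ≤ T := le_max_right _ _
    obtain ⟨p, hpl, hp⟩ := Nat.exists_infinite_primes (⌈v * (T * Real.log T)⌉₊ + 3)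
    have hpT : v * (T * Real.log T) ≤ p := by
      have h1 := Nat.le_ceil (v * (T * Real.log T))
      have h2 : ((⌈v * (T * Real.log T)⌉₊ + 3 : ℕ) : ℝ) ≤ p := by exact_mod_cast hpl
      push_cast at h2
      linarith
    -- solve `v t log t = p`
    obtain ⟨T', hT'⟩ : ∃ T' : ℝ, T' = T + p / v := ⟨_, rfl⟩
    have hpv : 0 ≤ (p : ℝ) / v := by positivity
    have hTT' : T ≤ T' := by linarith
    have hlT' : 1 ≤ Real.log T' := c6.trans (Real.log_le_log (by linarith) hTT')
    have hT'p : (p : ℝ) ≤ v * (T' * Real.log T') := by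
      have h1 : (p : ℝ) / v ≤ T' := by linarith
      rw [div_le_iff₀ hv0] at h1
      calc (p : ℝ) ≤ T' * v := h1
        _ = v * (T' * 1) := by ring
        _ ≤ v * (T' * Real.log T') := by
            have : 0 ≤ T' := by linarith
            gcongr
    have hcont : ContinuousOn (fun t : ℝ => v * (t * Real.log t)) (Set.Icc T T') := by
      apply ContinuousOn.mul continuousOn_const
      apply ContinuousOn.mul continuousOn_id
      apply Real.continuousOn_log.mono
      intro t ht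
      have : 0 < t := by linarith [ht.1]
      exact this.ne'
    obtain ⟨t, ⟨ht1, ht2⟩, ht3⟩ := intermediate_value_Icc hTT' hcont ⟨hpT, hT'p⟩
    have ht3' : v * (t * Real.log t) = p := ht3
    obtain ⟨d1, d2, d3, d4, d5, d6, d7, d8⟩ := ht₀ t ((le_max_left _ _).trans ht1)
    obtain ⟨m, hm1, hm2, hm3, hm4, hm5⟩ := hstep t d1 d2 d3 p hp (by omega) (by rw [← ht3']; exact d4)
    refine ⟨m, p, hm1, hm2, hm3, ?_⟩
    have hlm : 0 < Real.log m := by linarith
    obtain ⟨u, hu⟩ : ∃ u : ℝ, u = Real.log m := ⟨_, rfl⟩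
    rw [← hu] at hm4 hm5 hlm ⊢
    have hlt : Real.log t ≤ Real.log u := Real.log_le_log (by linarith) hm4
    have hll : 1 ≤ Real.log u := d6.trans hlt
    have hut : 0 < u * Real.log u := by positivity
    -- `u log u - t log t ≤ 2 log u + 2`
    have hdiff : u * Real.log u - t * Real.log t ≤ 4 * Real.log u := by
      have ht0 : 0 < t := by linarith
      have h1 : Real.log u - Real.log t ≤ (u - t) / t := by
        rw [← Real.log_div (by linarith) (by linarith)]
        have h2 := Real.log_le_sub_one_of_pos (show 0 < u / t by positivity)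
        have h3 : u / t - 1 = (u - t) / t := by field_simp
        linarith
      have h4 : t * (Real.log u - Real.log t) ≤ u - t := by
        calc t * (Real.log u - Real.log t) ≤ t * ((u - t) / t) := by gcongr
          _ = u - t := by field_simp
      have h5 : (u - t) * Real.log u ≤ 2 * Real.log u := by
        apply mul_le_mul_of_nonneg_right _ (by linarith)
        linarith
      nlinarith
    have hle : (p : ℝ) / (u * Real.log u) ≤ v := by
      rw [div_le_iff₀ hut, ← ht3']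
      have : t * Real.log t ≤ u * Real.log u := mul_le_mul hm4 hlt (by linarith) hlm.le
      gcongr
    rw [abs_sub_comm, abs_of_nonneg (by linarith)]
    have h6 : v - (p : ℝ) / (u * Real.log u) = v * (u * Real.log u - t * Real.log t) / (u * Real.log u) := by
      rw [← ht3']
      field_simp
    rw [h6, div_lt_iff₀ hut]
    calc v * (u * Real.log u - t * Real.log t) ≤ v * (4 * Real.log u) := by gcongr
      _ = (4 * v) * Real.log u := by ring
      _ < (ε * t) * Real.log u := by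
          apply mul_lt_mul_of_pos_right _ (by linarith)
          rw [div_lt_iff₀ hε] at d7
          linarith
      _ ≤ (ε * u) * Real.log u := by gcongr
      _ = ε * (u * Real.log u) := by ring

/-- **The values of the least prime in Goldbach representations.**

1. For every `J ≥ 1` there is `c > 0` such that for all large `x` every odd prime `p₀ ≤ c F(x)` is the value
`g m = p₀` of at least `x^(9/10)` even numbers `m` of `(x, 4 x]`; moreover `p₀` is the only prime `p ≤ c F(x)` for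
which one of the `2 J` numbers `i m - p`, `i m + p`, `1 ≤ i ≤ J`, is prime (so that `g (i m) > c F(x)` for
`2 ≤ i ≤ J`).

2. Every real number `v ≥ 0` is a limit point of `g m / (log m log log m)`, `m` even. -/
theorem result :
    (∀ J : ℕ, 1 ≤ J → ∃ c : ℝ, 0 < c ∧ ∃ x₀ : ℝ, ∀ x : ℝ, x₀ ≤ x → ∀ p₀ : ℕ, p₀.Prime → p₀ ≠ 2 →
      (p₀ : ℝ) ≤ c * F x →
      x ^ (9 / 10 : ℝ) ≤ ({m : ℕ | x < m ∧ (m : ℝ) ≤ 4 * x ∧ Only J (c * F x) p₀ m}.ncard : ℝ)) ∧
    (∀ v : ℝ, 0 ≤ v → ∀ ε : ℝ, 0 < ε → ∀ N : ℕ, ∃ m p : ℕ, N ≤ m ∧ Even m ∧ g m = p ∧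
      |(p : ℝ) / (Real.log m * Real.log (Real.log m)) - v| < ε) :=
  ⟨occurs, limit_points⟩

end Pool.Agent.Results.MP_bae66e_nt.EveryPrimeOccurs
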