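import Pool.Agent.Q120.GB.Main
import Pool.Agent.Q120.MF.Exists

/-!
# The least summand in Goldbach representations, in Cramér's model

Let `g(m)` be the least prime `p` such that `m - p` is prime. Granville, van de Lune and te Riele conjecture that
`g(m) = O(log^2 m log log m)`. In Cramér's random model of the primes the least summand is almost surely
`≤ (2 + ε) log^2 m log log m` for all large `m`, and `≥ (2 - ε) log^2 m log log m` for some `m` in `(x, 2 x]`,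
for all large `x`.
-/

set_option autoImplicit false

namespace Pool.Agent.Results.MP_bae66e_nt.ExactOrderInTheModel

open MeasureTheory Filter Pool.Agent.Q120.MF Pool.Agent.Q120.AD

theorem result :
    (∃ (Ω : Type) (_ : MeasurableSpace Ω) (μ : Measure Ω) (A : Ω → Set ℕ), IsProbabilityMeasure μ ∧ IsCramer μ A) ∧
    ∀ (Ω : Type) [MeasurableSpace Ω] (μ : Measure Ω) [IsProbabilityMeasure μ] (A : Ω → Set ℕ), IsCramer μ A →
      ∀ᵐ ω ∂μ, ∀ ε : ℝ, 0 < ε →
        -- every large `m` has a representation with a small summand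
        (∀ᶠ m : ℕ in atTop, ∃ a ∈ A ω, 3 ≤ a ∧ (a : ℝ) ≤ (2 + ε) * (Real.log m ^ 2 * Real.log (Real.log m)) ∧
          2 * a < m ∧ m - a ∈ A ω) ∧
        -- at every scale there is an `m` without smaller summand
        (∀ᶠ x : ℕ in atTop, ∃ m, x < m ∧ m ≤ 2 * x ∧
          ∀ a ∈ A ω, 3 ≤ a → (a : ℝ) ≤ (2 - ε) * (Real.log m ^ 2 * Real.log (Real.log m)) → m - a ∉ A ω) := by
  refine ⟨⟨_, _, cramerMeasure, cramerSet, inferInstance, isCramer⟩, ?_⟩
  intro Ω _ μ _ A hA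
  have h1 : ∀ᵐ ω ∂μ, ∀ j : ℕ, (∀ᶠ N : ℕ in atTop,
      ∃ a ∈ A ω, 3 ≤ a ∧ (a : ℝ) ≤ (2 + 1 / ((j : ℝ) + 1)) * Pool.Agent.Q120.GB.g N ∧ 2 * a < N ∧ N - a ∈ A ω) ∧
      (∀ᶠ x : ℕ in atTop, ∃ N, x < N ∧ N ≤ 2 * x ∧ ∀ a ∈ A ω, 3 ≤ a →
        (a : ℝ) ≤ (2 - 1 / ((j : ℝ) + 1)) * Pool.Agent.Q120.GB.g N → N - a ∉ A ω) := by
    rw [ae_all_iff]
    intro j
    have h2 : 1 / ((j : ℝ) + 1) ≤ 1 := by
      rw [div_le_one (by positivity)]
      linarith [Nat.cast_nonneg (α := ℝ) j]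
    filter_upwards [Pool.Agent.Q120.GB.upper hA (show 0 < 1 / ((j : ℝ) + 1) by positivity) h2,
      Pool.Agent.Q120.GB.lower hA (show 0 < 1 / ((j : ℝ) + 1) by positivity) h2] with ω h3 h4
    exact ⟨h3, h4⟩
  filter_upwards [h1] with ω hω
  intro ε hε
  obtain ⟨j, hj⟩ := exists_nat_gt (1 / ε)
  have hj1 : 1 / ((j : ℝ) + 1) ≤ ε := by
    rw [div_le_iff₀ (by positivity)]
    rw [div_lt_iff₀ hε] at hj
    nlinarith
  obtain ⟨h3, h4⟩ := hω j
  constructor
  · filter_upwards [h3, Pool.Agent.Q120.GB.g_tendsto.eventually_ge_atTop 0] with m hm hg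
    obtain ⟨a, a1, a2, a3, a4, a5⟩ := hm
    unfold Pool.Agent.Q120.GB.g at a3 hg
    exact ⟨a, a1, a2, a3.trans (mul_le_mul_of_nonneg_right (by linarith) hg), a4, a5⟩
  · obtain ⟨x0, hx0⟩ := eventually_atTop.1 (Pool.Agent.Q120.GB.g_tendsto.eventually_ge_atTop 0)
    filter_upwards [h4, eventually_ge_atTop x0] with x hx hx1
    obtain ⟨m, m1, m2, m3⟩ := hx
    refine ⟨m, m1, m2, fun a ha ha3 ham => m3 a ha ha3 (ham.trans ?_)⟩
    have hg := hx0 m (by omega)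
    exact mul_le_mul_of_nonneg_right (by linarith) hg

end Pool.Agent.Results.MP_bae66e_nt.ExactOrderInTheModel
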