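import Pool.Agent.Results.MP_bae66e_nt.SmallPrimeAlmostPrime
import Pool.Agent.Q253.Cov.Gold

/-!
# Narrow progressions of small primes `p` for which `N - p` is an almost prime

Let `0 < θ ≤ 1`. There is a set `E` with `O(X ^ (1 - θ + ε))` elements up to `X` (three prime factors; `O(X ^ (12/11 - θ + ε))` for two
prime factors) such that for all even `N` outside `E`: every subset of positive relative density of the set of the primes `p` of size
`N ^ θ` for which `N - p` has at most three prime factors, all at least a power of `N`, contains arithmetic progressions of any length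
with difference at most a power of `log N`; and for every colouring of the integers there are such progressions of one colour with all
the `N - p` having the same number of prime factors.

Libraries (starting files): `MP_bae66e_nt.SmallPrimeAlmostPrime` (number of these `p`), Szemerédi's theorem relative to sifted sets
`Y843.HS.fin`.
-/

set_option autoImplicit false

namespace Pool.Agent.Results.MP_bae66e_nt.NarrowProgressions

open Finset Filter
open Pool.Agent.Results.MP_bae66e_nt.SmallPrimeAlmostPrime (sing almostPrimes)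
open Pool.Agent.Y843.HS (Pr VV Pr_prime)
open Pool.Agent.Q253.Cov (ap_dense Zg Zg_sys sg VVg_le sg_pos)

open Classical in
/-- the primes `p ≤ N - 2` with `N ^ θ / 4 < p < N ^ θ` such that `N - p` has at most `r` prime factors (with multiplicity), all of them
`≥ N ^ ζ / 2` -/
noncomputable def Summands (r : ℕ) (θ ζ : ℝ) (N : ℕ) : Finset ℕ :=
  (range (N - 1)).filter (fun p : ℕ => p.Prime ∧ (N : ℝ) ^ θ / 4 < p ∧ (p : ℝ) < (N : ℝ) ^ θ ∧
    (N - p).primeFactorsList.length ≤ r ∧ ∀ q : ℕ, q.Prime → q ∣ (N - p) → (N : ℝ) ^ ζ / 2 ≤ q)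

lemma mem_S {r : ℕ} {θ ζ : ℝ} {N p : ℕ} (h : p ∈ Summands r θ ζ N) : p + 2 ≤ N ∧ p.Prime ∧ (N : ℝ) ^ θ / 4 < p ∧ (p : ℝ) < (N : ℝ) ^ θ ∧
    (N - p).primeFactorsList.length ≤ r ∧ ∀ q : ℕ, q.Prime → q ∣ (N - p) → (N : ℝ) ^ ζ / 2 ≤ q := by
  classical
  unfold Summands at h
  rw [mem_filter, mem_range] at h
  exact ⟨by omega, h.2⟩

lemma count (r : ℕ) (θ ζ : ℝ) (N : ℕ) : almostPrimes r θ ζ N ≤ (Summands r θ ζ N).card + 1 := by
  classical
  have h : (range N).filter (fun p : ℕ => p.Prime ∧ (N : ℝ) ^ θ / 4 < p ∧ (p : ℝ) < (N : ℝ) ^ θ ∧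
    (N - p).primeFactorsList.length ≤ r ∧ ∀ q : ℕ, q.Prime → q ∣ (N - p) → (N : ℝ) ^ ζ / 2 ≤ q) ⊆ insert (N - 1) (Summands r θ ζ N) := by
    intro p hp
    rw [mem_filter, mem_range] at hp
    rw [mem_insert]
    by_cases h1 : p = N - 1
    · exact Or.inl h1
    · right
      unfold Summands
      rw [mem_filter, mem_range]
      exact ⟨by omega, hp.2⟩
  have h1 : almostPrimes r θ ζ N = ((range N).filter (fun p : ℕ => p.Prime ∧ (N : ℝ) ^ θ / 4 < p ∧ (p : ℝ) < (N : ℝ) ^ θ ∧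
    (N - p).primeFactorsList.length ≤ r ∧ ∀ q : ℕ, q.Prime → q ∣ (N - p) → (N : ℝ) ^ ζ / 2 ≤ q)).card := by
    unfold almostPrimes
    congr
  rw [h1]
  exact (card_le_card h).trans (card_insert_le _ _)

/-- the dense version, for one `N` -/
theorem dense (L r : ℕ) (θ ζ c : ℝ) (hθ : 0 < θ) (hθ1 : θ ≤ 1) (hζ : 0 < ζ) (hζ1 : ζ ≤ 1) (hc : 0 < c) :
    ∃ D N₀ : ℕ, ∀ N : ℕ, N₀ ≤ N → Even N → ∀ S ⊆ Summands r θ ζ N, c * (sing N * ((N : ℝ) ^ θ / Real.log N ^ 2)) ≤ (S.card : ℝ) →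
    ∃ a d : ℕ, 1 ≤ d ∧ (d : ℝ) ≤ Real.log N ^ D ∧ ∀ j < L, a + j * d ∈ S := by
  classical
  obtain ⟨κ, hκ⟩ : ∃ κ, κ = min ζ θ / 2 := ⟨_, rfl⟩
  have hκ0 : 0 < κ := by rw [hκ]; positivity
  have hκζ : κ ≤ ζ / 2 := by rw [hκ]; linarith [min_le_left ζ θ]
  have hκθ : κ ≤ θ / 2 := by rw [hκ]; linarith [min_le_right ζ θ]
  obtain ⟨C, hC, hVV⟩ := VVg_le
  obtain ⟨D, X₀, H⟩ := ap_dense L 2 κ (c * θ ^ 2 / (4 * C)) hκ0 (by linarith) (by positivity)
  have ev1 : ∀ᶠ N : ℕ in atTop, (max 4 ((X₀ : ℝ) + 1)) ≤ (N : ℝ) ^ (θ / 2) :=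
    ((tendsto_rpow_atTop (by linarith)).comp tendsto_natCast_atTop_atTop).eventually_ge_atTop _
  have ev2 : ∀ᶠ N : ℕ in atTop, (3 : ℝ) ≤ (N : ℝ) ^ (ζ / 2) :=
    ((tendsto_rpow_atTop (by linarith)).comp tendsto_natCast_atTop_atTop).eventually_ge_atTop _
  have ev3 : ∀ᶠ N : ℕ in atTop, (5 : ℝ) ≤ (N : ℝ) ^ (θ / 2) :=
    ((tendsto_rpow_atTop (by linarith)).comp tendsto_natCast_atTop_atTop).eventually_ge_atTop _
  obtain ⟨N₁, hN₁⟩ := eventually_atTop.1 (ev1.and (ev2.and ev3))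
  refine ⟨D, max N₁ 2, ?_⟩
  intro N hN hNe S hS hcard
  obtain ⟨e1, e2, e3⟩ := hN₁ N ((le_max_left _ _).trans hN)
  have hN2 : 2 ≤ N := (le_max_right _ _).trans hN
  have hNr : (2 : ℝ) ≤ N := by exact_mod_cast hN2
  have hN0 : (0 : ℝ) < N := by linarith
  have hN1 : (1 : ℝ) ≤ N := by linarith
  obtain ⟨X, hX⟩ : ∃ X, X = ⌊(N : ℝ) ^ θ⌋₊ := ⟨_, rfl⟩
  have hsq : (N : ℝ) ^ (θ / 2) * (N : ℝ) ^ (θ / 2) = (N : ℝ) ^ θ := by
    rw [← Real.rpow_add hN0]
    congr 1
    ring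
  have hXle : (X : ℝ) ≤ (N : ℝ) ^ θ := by rw [hX]; exact Nat.floor_le (by positivity)
  have hXge : (N : ℝ) ^ (θ / 2) ≤ X := by
    have h1 := Nat.lt_floor_add_one ((N : ℝ) ^ θ)
    rw [← hX] at h1
    nlinarith [(le_max_left (4 : ℝ) ((X₀ : ℝ) + 1)).trans e1]
  have hX0 : X₀ ≤ X := by
    have h1 : (X₀ : ℝ) ≤ X := by linarith [(le_max_right (4 : ℝ) ((X₀ : ℝ) + 1)).trans e1]
    exact_mod_cast h1
  have hX2 : 2 ≤ X := by
    have h1 : (2 : ℝ) ≤ X := by linarith
    exact_mod_cast h1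
  have hXr : (2 : ℝ) ≤ X := by exact_mod_cast hX2
  have hXN : (X : ℝ) ≤ N := by
    refine hXle.trans ?_
    calc (N : ℝ) ^ θ ≤ (N : ℝ) ^ (1 : ℝ) := Real.rpow_le_rpow_of_exponent_le hN1 hθ1
      _ = N := Real.rpow_one _
  have hXκ : (X : ℝ) ^ κ ≤ (N : ℝ) ^ κ := Real.rpow_le_rpow (by linarith) hXN hκ0.le
  have hκ1 : (X : ℝ) ^ κ < (N : ℝ) ^ ζ / 2 := by
    have h1 : (N : ℝ) ^ κ ≤ (N : ℝ) ^ (ζ / 2) := Real.rpow_le_rpow_of_exponent_le hN1 hκζ
    have h2 : (N : ℝ) ^ (ζ / 2) * (N : ℝ) ^ (ζ / 2) = (N : ℝ) ^ ζ := by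
      rw [← Real.rpow_add hN0]
      congr 1
      ring
    nlinarith
  have hκ2 : (X : ℝ) ^ κ < (N : ℝ) ^ θ / 4 := by
    have h1 : (N : ℝ) ^ κ ≤ (N : ℝ) ^ (θ / 2) := Real.rpow_le_rpow_of_exponent_le hN1 hκθ
    nlinarith
  obtain ⟨a, d, hd1, hd2, hd3⟩ := H X hX0 (Zg N) (Zg_sys hNe) 0 S (by
    intro p hp
    obtain ⟨_, h2, _, h4, _⟩ := mem_S (hS hp)
    rw [mem_Ioc]
    refine ⟨h2.pos, ?_⟩
    rw [Nat.zero_add, hX]
    exact Nat.le_floor h4.le) (by
    intro p hp q hq hqX hmp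
    obtain ⟨h1, h2, h3, h4, _, h6⟩ := mem_S (hS hp)
    unfold Zg at hmp
    rw [mem_insert, mem_singleton] at hmp
    rcases hmp with h | h
    · have h7 := Nat.dvd_of_mod_eq_zero h
      have h8 := (Nat.prime_dvd_prime_iff_eq hq h2).1 h7
      rw [h8] at hqX
      linarith
    · have h7 : q ∣ N - p := (Nat.modEq_iff_dvd' (by omega)).1 h
      have h8 := h6 q hq h7
      linarith) (by
    refine le_trans ?_ hcard
    have hlN : 0 < Real.log N := Real.log_pos (by linarith)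
    have hlX0 : 0 < Real.log X := Real.log_pos (by linarith)
    have hlX : θ / 2 * Real.log N ≤ Real.log X := by
      have h1 := Real.log_le_log (by positivity) hXge
      rwa [Real.log_rpow hN0] at h1
    have hsg : sing N = sg N := rfl
    have h1 := hVV N X hNe (by omega) hX2
    have h2 : sg N / Real.log X ^ 2 ≤ 4 / θ ^ 2 * (sg N / Real.log N ^ 2) := by
      have h3 : (θ / 2 * Real.log N) ^ 2 ≤ Real.log X ^ 2 := pow_le_pow_left₀ (by positivity) hlX 2
      calc sg N / Real.log X ^ 2 ≤ sg N / (θ / 2 * Real.log N) ^ 2 :=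
            div_le_div_of_nonneg_left (sg_pos N).le (by positivity) h3
        _ = _ := by
            field_simp
            norm_num
    rw [hsg]
    calc c * θ ^ 2 / (4 * C) * (X * VV (Zg N) 0 X) ≤ c * θ ^ 2 / (4 * C) * ((N : ℝ) ^ θ * (C * (4 / θ ^ 2 * (sg N / Real.log N ^ 2)))) := by
          apply mul_le_mul_of_nonneg_left _ (by positivity)
          apply mul_le_mul hXle (h1.trans (mul_le_mul_of_nonneg_left h2 hC.le)) _ (by positivity)
          exact Pool.Agent.Q253.Thin.VZ_nonneg (Zg_sys hNe) _ _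
      _ = _ := by field_simp)
  refine ⟨a, d, hd1, hd2.trans ?_, hd3⟩
  apply pow_le_pow_left₀ (Real.log_nonneg (by linarith))
  exact Real.log_le_log (by linarith) hXN

open Classical in
/-- **Narrow progressions of small primes.** Let `r = 3`, `1 / 2 ≤ τ < 1`, `ζ = 2 τ / 5`, or `r = 2`, `6 / 11 ≤ τ < 1`, `ζ = τ / 4`; let
`0 < θ ≤ 1` and `ε > 0`. There is a set `E` of integers with `O(X ^ (2 τ - θ + ε))` elements up to `X` such that, with `Summands N` the
set of the primes `p ≤ N - 2` with `N ^ θ / 4 < p < N ^ θ` such that `N - p` has at most `r` prime factors, all `≥ N ^ ζ / 2`, for all `L`: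

(1) for every `η > 0` there are `D` and `N₀` such that for all even `N ≥ N₀` outside `E` every set of at least `η |Summands N|` elements
of `Summands N` contains an arithmetic progression of length `L` with difference `≤ log ^ D N`;

(2) for every `k ≥ 1` there are `D` and `N₀` such that for all even `N ≥ N₀` outside `E` and every colouring of the integers with `k`
colours there are `1 ≤ s ≤ r` and an arithmetic progression of length `L` with difference `≤ log ^ D N` of elements `p` of `Summands N`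
of the same colour such that all the numbers `N - p` have exactly `s` prime factors;

here `Summands N` has at least `δ sing N N ^ θ / log ^ 2 N` elements for large even `N ∉ E` (a theorem of the starting files). -/
theorem result : ∀ (r : ℕ) (θ τ ζ ε : ℝ), ((r = 3 ∧ 1 / 2 ≤ τ ∧ ζ = 2 / 5 * τ) ∨ (r = 2 ∧ 6 / 11 ≤ τ ∧ ζ = τ / 4)) → τ < 1 →
    0 < θ → θ ≤ 1 → 0 < ε → ∃ δ C : ℝ, 0 < δ ∧ 0 < C ∧ ∃ E : Set ℕ,
    (∀ X : ℕ, 1 ≤ X → (((Icc 1 X).filter (fun N => N ∈ E)).card : ℝ) ≤ C * (X : ℝ) ^ (2 * τ - θ + ε)) ∧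
    (∃ N₁ : ℕ, ∀ N : ℕ, N₁ ≤ N → Even N → N ∉ E →
      δ * (sing N * ((N : ℝ) ^ θ / Real.log N ^ 2)) ≤ ((Summands r θ ζ N).card : ℝ)) ∧
    ∀ L : ℕ,
      (∀ η : ℝ, 0 < η → ∃ D N₀ : ℕ, ∀ N : ℕ, N₀ ≤ N → Even N → N ∉ E → ∀ S ⊆ Summands r θ ζ N, η * (Summands r θ ζ N).card ≤ S.card →
        ∃ a d : ℕ, 1 ≤ d ∧ (d : ℝ) ≤ Real.log N ^ D ∧ ∀ j < L, a + j * d ∈ S) ∧
      (∀ k : ℕ, 1 ≤ k → ∃ D N₀ : ℕ, ∀ N : ℕ, N₀ ≤ N → Even N → N ∉ E → ∀ col : ℕ → Fin k,
        ∃ s : ℕ, 1 ≤ s ∧ s ≤ r ∧ ∃ b : Fin k, ∃ a d : ℕ, 1 ≤ d ∧ (d : ℝ) ≤ Real.log N ^ D ∧ ∀ j < L,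
          a + j * d ∈ Summands r θ ζ N ∧ col (a + j * d) = b ∧ (N - (a + j * d)).primeFactorsList.length = s) := by
  intro r θ τ ζ ε hpar hτ hθ hθ1 hε
  obtain ⟨δ, C, hδ, hC, hex⟩ := Pool.Agent.Results.MP_bae66e_nt.SmallPrimeAlmostPrime.result r θ τ ζ ε hpar hτ hθ hθ1 hε
  have hζ0 : 0 < ζ := by rcases hpar with ⟨_, h1, h2⟩ | ⟨_, h1, h2⟩ <;> linarith
  have hζ1 : ζ ≤ 1 := by rcases hpar with ⟨_, h1, h2⟩ | ⟨_, h1, h2⟩ <;> linarith
  have hr1 : 1 ≤ r := by rcases hpar with ⟨h, _⟩ | ⟨h, _⟩ <;> omega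
  obtain ⟨E, hE⟩ : ∃ E : Set ℕ, E = {N | Even N ∧ (almostPrimes r θ ζ N : ℝ) < δ * sing N * ((N : ℝ) ^ θ / Real.log N ^ 2)} := ⟨_, rfl⟩
  have ev1 : ∀ᶠ N : ℕ in atTop, 2 / δ ≤ (N : ℝ) ^ θ / Real.log N ^ 2 := by
    have h1 : Tendsto (fun x : ℝ => Real.log x ^ (2 : ℝ) / x ^ θ) atTop (nhds 0) :=
      (isLittleO_log_rpow_rpow_atTop 2 hθ).tendsto_div_nhds_zero
    have h2 := h1.eventually_le_const (show (0 : ℝ) < δ / 2 by positivity)
    have h3 := tendsto_natCast_atTop_atTop.eventually (h2.and (eventually_gt_atTop (1 : ℝ)))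
    filter_upwards [h3] with N hN
    obtain ⟨h4, h5⟩ := hN
    have h6 : 0 < Real.log N := Real.log_pos h5
    have h7 : (0 : ℝ) < (N : ℝ) ^ θ := by positivity
    rw [div_le_iff₀ h7, Real.rpow_two] at h4
    rw [div_le_div_iff₀ hδ (by positivity)]
    linarith
  obtain ⟨N₁, hN₁⟩ := eventually_atTop.1 ev1
  have hout : ∀ N, N₁ ≤ N → Even N → N ∉ E → δ / 2 * (sing N * ((N : ℝ) ^ θ / Real.log N ^ 2)) ≤ ((Summands r θ ζ N).card : ℝ) := by
    intro N hN hNe hNE
    rw [hE, Set.mem_ofPred_eq, not_and, not_lt] at hNE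
    have h1 := hNE hNe
    have h2 : ((almostPrimes r θ ζ N : ℕ) : ℝ) ≤ (Summands r θ ζ N).card + 1 := by exact_mod_cast count r θ ζ N
    have h3 := hN₁ N hN
    have h4 : (1 : ℝ) ≤ sing N := by
      unfold SmallPrimeAlmostPrime.sing
      calc (1 : ℝ) = ∏ _p ∈ N.primeFactors.erase 2, (1 : ℝ) := prod_const_one.symm
        _ ≤ _ := Finset.prod_le_prod (fun _ _ => zero_le_one) fun q hq => Pool.Agent.Q253.Cov.sg_fac hq
    obtain ⟨Y, hY⟩ : ∃ Y, Y = (N : ℝ) ^ θ / Real.log N ^ 2 := ⟨_, rfl⟩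
    rw [← hY] at h1 h3 ⊢
    have h5 : 2 / δ * 1 ≤ Y * sing N := mul_le_mul h3 h4 zero_le_one (le_trans (by positivity) h3)
    have h6 : 2 ≤ δ * (Y * sing N) := by
      have := mul_le_mul_of_nonneg_left h5 hδ.le
      rw [mul_one, mul_div_cancel₀ _ hδ.ne'] at this
      exact this
    nlinarith
  refine ⟨δ / 2, C, by positivity, hC, E, ?_, ⟨N₁, hout⟩, ?_⟩
  · intro X hX
    refine le_trans (Nat.cast_le.2 (card_le_card ?_)) (hex X hX)
    intro n hn
    rw [mem_filter, hE, Set.mem_ofPred_eq] at hn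
    rw [mem_filter]
    exact hn
  · intro L
    constructor
    · intro η hη
      obtain ⟨D, N₀, H⟩ := dense L r θ ζ (η * (δ / 2)) hθ hθ1 hζ0 hζ1 (by positivity)
      refine ⟨D, max N₀ N₁, fun N hN hNe hNE S hS hcard => H N ((le_max_left _ _).trans hN) hNe S hS ?_⟩
      calc η * (δ / 2) * (sing N * ((N : ℝ) ^ θ / Real.log N ^ 2)) = η * (δ / 2 * (sing N * ((N : ℝ) ^ θ / Real.log N ^ 2))) := by ring
        _ ≤ η * (Summands r θ ζ N).card :=
            mul_le_mul_of_nonneg_left (hout N ((le_max_right _ _).trans hN) hNe hNE) hη.le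
        _ ≤ _ := hcard
    · intro k hk
      have hk0 : (0 : ℝ) < k := by exact_mod_cast hk
      have hr0 : (0 : ℝ) < r := by exact_mod_cast hr1
      obtain ⟨D, N₀, H⟩ := dense L r θ ζ (δ / 2 / (r * k)) hθ hθ1 hζ0 hζ1 (by positivity)
      refine ⟨D, max N₀ N₁, fun N hN hNe hNE col => ?_⟩
      obtain ⟨K, hK⟩ : ∃ K : Finset (ℕ × Fin k), K = (Icc 1 r) ×ˢ univ := ⟨_, rfl⟩
      have hKc : K.card = r * k := by
        rw [hK, card_product, card_univ, Fintype.card_fin, Nat.card_Icc, Nat.add_sub_cancel]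
      have hcov : Summands r θ ζ N ⊆ K.biUnion (fun c => (Summands r θ ζ N).filter
          (fun m => (N - m).primeFactorsList.length = c.1 ∧ col m = c.2)) := by
        intro m hm
        rw [mem_biUnion]
        obtain ⟨h1, _, _, _, h3, _⟩ := mem_S hm
        refine ⟨((N - m).primeFactorsList.length, col m), ?_, ?_⟩
        · rw [hK, mem_product]
          refine ⟨?_, mem_univ _⟩
          have h4 : (N - m).primeFactorsList.length ≠ 0 := by
            intro h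
            have h4 := List.length_eq_zero_iff.1 h
            rw [Nat.primeFactorsList_eq_nil] at h4
            omega
          rw [mem_Icc]
          simp only
          omega
        · rw [mem_filter]
          exact ⟨hm, rfl, rfl⟩
      obtain ⟨c, hc, hcc⟩ : ∃ c ∈ K, δ / 2 / (r * k) * (sing N * ((N : ℝ) ^ θ / Real.log N ^ 2)) ≤
          (((Summands r θ ζ N).filter (fun m => (N - m).primeFactorsList.length = c.1 ∧ col m = c.2)).card : ℝ) := by
        by_contra hcon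
        push Not at hcon
        have h3 : ((Summands r θ ζ N).card : ℝ) ≤ ∑ c ∈ K,
            ((((Summands r θ ζ N).filter (fun m => (N - m).primeFactorsList.length = c.1 ∧ col m = c.2)).card : ℕ) : ℝ) := by
          exact_mod_cast (card_le_card hcov).trans card_biUnion_le
        have hKne : K.Nonempty := by
          rw [← card_pos, hKc]
          positivity
        have h4 := sum_lt_sum_of_nonempty hKne hcon
        rw [sum_const, hKc, nsmul_eq_mul] at h4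
        have h5 : ((r * k : ℕ) : ℝ) * (δ / 2 / (r * k) * (sing N * ((N : ℝ) ^ θ / Real.log N ^ 2))) =
            δ / 2 * (sing N * ((N : ℝ) ^ θ / Real.log N ^ 2)) := by
          push_cast
          field_simp
        rw [h5] at h4
        linarith [hout N ((le_max_right _ _).trans hN) hNe hNE]
      obtain ⟨a, d, hd1, hd2, hd3⟩ := H N ((le_max_left _ _).trans hN) hNe _ (filter_subset _ _) hcc
      rw [hK, mem_product, mem_Icc] at hc
      refine ⟨c.1, hc.1.1, hc.1.2, c.2, a, d, hd1, hd2, ?_⟩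
      intro j hj
      have h3 := hd3 j hj
      rw [mem_filter] at h3
      exact ⟨h3.1, h3.2.2, h3.2.1⟩

end Pool.Agent.Results.MP_bae66e_nt.NarrowProgressions
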