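import Pool.Agent.Q138.PS.TW
import Pool.Agent.Results.MP_bae66e_nt.SmallPrimeAlmostPrime

/-!
# A very small prime plus an almost prime, for the even numbers `⌊α P(n)⌋`

Let `q ≥ 2`. Outside a set of real numbers of Hausdorff dimension at most `q / (q + 1 / (q 2 ^ (q - 1)))` (that is `8 / 9` for
`q = 2`) every `α > 0` has the following property. For each rational `0 < θ ≤ 1` there are `δ = δ(θ) > 0`, `η > 0` such that for
ALL integral polynomials `P` of degree `q` with positive leading coefficient and coefficients of size at most `N ^ η`, for all but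
`N ^ (1 - η)` of the `n ≤ N`, the number `M = ⌊α P(n)⌋` is odd or there are at least `δ S(M) M ^ θ / (log M) ^ 2` primes
`M ^ θ / 4 < p < M ^ θ` such that `M - p` has at most three prime factors, all at least `M ^ (1 / 5) / 2`; if `θ > 1 / 11` the same
holds with at most two prime factors, all at least `M ^ (3 / 22) / 2`.
-/

set_option autoImplicit false

namespace Pool.Agent.Results.MP_bae66e_nt.SmallPrimesAlongRealMultiples

open Finset Filter Topology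
open Pool.Agent.Q138.PS
open Pool.Agent.Results.MP_bae66e_nt.SmallPrimeAlmostPrime (sing almostPrimes)

/-- `M` is even and has fewer than `δ S(M) M ^ θ / (log M) ^ 2` primes `M ^ θ / 4 < p < M ^ θ` such that `M - p` has at most `r`
prime factors, all at least `M ^ ζ / 2` -/
def Bad (r : ℕ) (θ ζ δ : ℝ) (M : ℕ) : Prop :=
  Even M ∧ (almostPrimes r θ ζ M : ℝ) < δ * sing M * ((M : ℝ) ^ θ / Real.log M ^ 2)

open Classical in
/-- the number of the `1 ≤ n ≤ N` for which `⌊α P(n)⌋` is `Bad` -/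
noncomputable def bad (r : ℕ) (θ ζ δ : ℝ) (α : ℝ) (P : Polynomial ℤ) (N : ℕ) : ℕ :=
  ((Icc 1 N).filter fun n : ℕ => Bad r θ ζ δ ⌊α * ((P.eval (n : ℤ) : ℤ) : ℝ)⌋₊).card

theorem bad_eq (r : ℕ) (θ ζ δ : ℝ) (α : ℝ) (P : Polynomial ℤ) (N : ℕ) :
    (bad r θ ζ δ α P N : ℝ) = cnP (Bad r θ ζ δ) α P N := by
  classical
  unfold bad cnP cn
  refine congrArg _ (congrArg _ ?_)
  ext n
  simp only [mem_filter]

theorem few (r : ℕ) (θ τ ζ : ℝ)
    (hpar : (r = 3 ∧ 1 / 2 ≤ τ ∧ ζ = 2 / 5 * τ) ∨ (r = 2 ∧ 6 / 11 ≤ τ ∧ ζ = τ / 4))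
    (hτ : τ < 1) (hθ0 : 0 < θ) (hθ1 : θ ≤ 1) (h : 2 * τ - θ < 1) :
    ∃ δ C : ℝ, 0 < δ ∧ ∀ Y : ℕ, 3 ≤ Y → cn (Bad r θ ζ δ) Y ≤ C * (Y : ℝ) ^ (1 - (1 - (2 * τ - θ)) / 2) := by
  obtain ⟨δ, C, hδ, hC, h1⟩ := Pool.Agent.Results.MP_bae66e_nt.SmallPrimeAlmostPrime.result r θ τ ζ ((1 - (2 * τ - θ)) / 2)
    hpar hτ hθ0 hθ1 (by linarith)
  refine ⟨δ, C, hδ, fun Y hY => ?_⟩
  have h2 := h1 Y (by omega)
  rw [show 2 * τ - θ + (1 - (2 * τ - θ)) / 2 = 1 - (1 - (2 * τ - θ)) / 2 by ring] at h2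
  refine le_trans (le_of_eq ?_) h2
  unfold cn
  refine congrArg _ (congrArg _ ?_)
  ext n
  simp only [mem_filter]
  rfl

/-- **Theorem.** -/
theorem result :
    ∃ δ : ℚ → ℝ, (∀ θ, 0 < δ θ) ∧ ∀ q : ℕ, 2 ≤ q →
    ∃ E : Set ℝ, dimH E ≤ ENNReal.ofReal (q / (q + 1 / ((q : ℝ) * 2 ^ (q - 1)))) ∧ ∀ α : ℝ, 0 < α → α ∉ E →
      ∀ θ : ℚ, 0 < θ → θ ≤ 1 → ∃ η : ℝ, 0 < η ∧ ∀ᶠ N : ℕ in atTop, ∀ P : Polynomial ℤ, P.natDegree = q → 0 < P.leadingCoeff →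
        (∀ j, |((P.coeff j : ℤ) : ℝ)| ≤ (N : ℝ) ^ η) →
        (bad 3 θ (1 / 5) (δ θ) α P N : ℝ) ≤ (N : ℝ) ^ (1 - η) ∧
        (1 / 11 < θ → (bad 2 θ (3 / 22) (δ θ) α P N : ℝ) ≤ (N : ℝ) ^ (1 - η)) := by
  classical
  have h3 : ∀ θ : ℚ, ∃ δ C : ℝ, 0 < δ ∧ (0 < θ → θ ≤ 1 → ∀ Y : ℕ, 3 ≤ Y →
      cn (Bad 3 θ (1 / 5) δ) Y ≤ C * (Y : ℝ) ^ (1 - (θ : ℝ) / 2)) := by
    intro θ
    by_cases h : 0 < θ ∧ θ ≤ 1
    · have h0 : (0 : ℝ) < θ := by exact_mod_cast h.1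
      have h1 : (θ : ℝ) ≤ 1 := by exact_mod_cast h.2
      obtain ⟨δ, C, hδ, hc⟩ := few 3 θ (1 / 2) (1 / 5) (Or.inl ⟨rfl, le_rfl, by norm_num⟩) (by norm_num) h0 h1 (by linarith)
      refine ⟨δ, C, hδ, fun _ _ Y hY => (hc Y hY).trans (le_of_eq ?_)⟩
      congr 2
      ring
    · exact ⟨1, 1, one_pos, fun h1 h2 => absurd ⟨h1, h2⟩ h⟩
  have h2 : ∀ θ : ℚ, ∃ δ C : ℝ, 0 < δ ∧ (1 / 11 < θ → θ ≤ 1 → ∀ Y : ℕ, 3 ≤ Y →
      cn (Bad 2 θ (3 / 22) δ) Y ≤ C * (Y : ℝ) ^ (1 - ((θ : ℝ) - 1 / 11) / 2)) := by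
    intro θ
    by_cases h : 1 / 11 < θ ∧ θ ≤ 1
    · have h0 : (1 / 11 : ℝ) < θ := by
        have h' : ((1 / 11 : ℚ) : ℝ) < θ := by exact_mod_cast h.1
        push_cast at h'
        exact h'
      have h1 : (θ : ℝ) ≤ 1 := by exact_mod_cast h.2
      obtain ⟨δ, C, hδ, hc⟩ := few 2 θ (6 / 11) (3 / 22) (Or.inr ⟨rfl, le_rfl, by norm_num⟩) (by norm_num) (by linarith) h1
        (by linarith)
      refine ⟨δ, C, hδ, fun _ _ Y hY => (hc Y hY).trans (le_of_eq ?_)⟩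
      congr 2
      ring
    · exact ⟨1, 1, one_pos, fun h1 h2 => absurd ⟨h1, h2⟩ h⟩
  choose δ3 C3 hδ3 hc3 using h3
  choose δ2 C2 hδ2 hc2 using h2
  refine ⟨fun θ => min (δ3 θ) (δ2 θ), fun θ => lt_min (hδ3 θ) (hδ2 θ), fun q hq => ?_⟩
  obtain ⟨E, hE, hg⟩ := exc_nat (ι := ℚ × Bool) q hq (fun i => if i.2 = true then Bad 3 i.1 (1 / 5) (δ3 i.1)
    else Bad 2 i.1 (3 / 22) (δ2 i.1))
  refine ⟨E, hE, fun α hα hαE θ hθ0 hθ1 => ?_⟩
  have h0 : (0 : ℝ) < θ := by exact_mod_cast hθ0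
  have h1 : (θ : ℝ) ≤ 1 := by exact_mod_cast hθ1
  obtain ⟨η3, hη3, -, -, g3⟩ := hg α hα hαE (θ, true)
  obtain ⟨η2, hη2, -, -, g2⟩ := hg α hα hαE (θ, false)
  rw [if_pos rfl] at g3
  simp only [Bool.false_eq_true, if_false] at g2
  have k3 := g3 ((θ : ℝ) / 2) (C3 θ) (by positivity) (by linarith) (hc3 θ hθ0 hθ1)
  have hmono : ∀ (r : ℕ) (ζ δ δ' : ℝ) (P : Polynomial ℤ) (N : ℕ), δ ≤ δ' → 0 ≤ δ →
      cnP (Bad r θ ζ δ) α P N ≤ cnP (Bad r θ ζ δ') α P N := by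
    intro r ζ δ δ' P N h h'
    unfold cnP cn
    refine Nat.cast_le.2 (card_le_card ?_)
    intro n hn
    simp only [mem_filter] at hn ⊢
    refine ⟨hn.1, hn.2.1, lt_of_lt_of_le hn.2.2 ?_⟩
    have hs : 0 ≤ sing ⌊α * ((P.eval (n : ℤ) : ℤ) : ℝ)⌋₊ := by
      unfold sing
      refine prod_nonneg fun p hp => ?_
      have hp2 : (2 : ℝ) ≤ p := by exact_mod_cast (Nat.prime_of_mem_primeFactors (mem_of_mem_erase hp)).two_le
      exact div_nonneg (by linarith) (by linarith)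
    gcongr
  by_cases hθ : 1 / 11 < θ
  · have h11 : (1 / 11 : ℝ) < θ := by
      have h' : ((1 / 11 : ℚ) : ℝ) < θ := by exact_mod_cast hθ
      push_cast at h'
      exact h'
    have k2 := g2 (((θ : ℝ) - 1 / 11) / 2) (C2 θ) (by linarith) (by linarith) (hc2 θ hθ hθ1)
    set e3 : ℝ := min ((θ : ℝ) / 2 / 4) (η3 / 2) with he3
    set e2 : ℝ := min (((θ : ℝ) - 1 / 11) / 2 / 4) (η2 / 2) with he2
    have he3p : 0 < e3 := lt_min (by positivity) (by positivity)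
    have he2p : 0 < e2 := lt_min (by linarith) (by positivity)
    have hm3 : min e3 e2 ≤ e3 := min_le_left _ _
    have hm2 : min e3 e2 ≤ e2 := min_le_right _ _
    have hle3 : min e3 e2 ≤ η3 := hm3.trans ((min_le_right _ _).trans (by linarith))
    have hle2 : min e3 e2 ≤ η2 := hm2.trans ((min_le_right _ _).trans (by linarith))
    refine ⟨min e3 e2, lt_min he3p he2p, ?_⟩
    filter_upwards [k3, k2, eventually_ge_atTop 1] with N m3 m2 hN1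
    intro P hdeg hlead hco
    have hN1r : (1 : ℝ) ≤ N := by exact_mod_cast hN1
    have n3 := m3 P hdeg hlead fun j => (hco j).trans (Real.rpow_le_rpow_of_exponent_le hN1r hle3)
    have n2 := m2 P hdeg hlead fun j => (hco j).trans (Real.rpow_le_rpow_of_exponent_le hN1r hle2)
    refine ⟨?_, fun _ => ?_⟩
    · rw [bad_eq]
      refine (hmono 3 (1 / 5) _ _ P N (min_le_left _ _) (lt_min (hδ3 θ) (hδ2 θ)).le).trans (n3.trans ?_)
      exact Real.rpow_le_rpow_of_exponent_le hN1r (by linarith)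
    · rw [bad_eq]
      refine (hmono 2 (3 / 22) _ _ P N (min_le_right _ _) (lt_min (hδ3 θ) (hδ2 θ)).le).trans (n2.trans ?_)
      exact Real.rpow_le_rpow_of_exponent_le hN1r (by linarith)
  · refine ⟨min ((θ : ℝ) / 2 / 4) (η3 / 2), lt_min (by positivity) (by positivity), ?_⟩
    filter_upwards [k3, eventually_ge_atTop 1] with N m3 hN1
    intro P hdeg hlead hco
    have hN1r : (1 : ℝ) ≤ N := by exact_mod_cast hN1
    have hle3 : min ((θ : ℝ) / 2 / 4) (η3 / 2) ≤ η3 := (min_le_right _ _).trans (by linarith)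
    have n3 := m3 P hdeg hlead fun j => (hco j).trans (Real.rpow_le_rpow_of_exponent_le hN1r hle3)
    refine ⟨?_, fun h => absurd h hθ⟩
    rw [bad_eq]
    exact (hmono 3 (1 / 5) _ _ P N (min_le_left _ _) (lt_min (hδ3 θ) (hδ2 θ)).le).trans n3

end Pool.Agent.Results.MP_bae66e_nt.SmallPrimesAlongRealMultiples
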